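import Pool.Agent.VN.Final
import Pool.Agent.VN.Stmt

/-!
# MP_7e9189_lc, Q1: full negative answer

For every countable ordinal `α` there are countable groups `G`, `H` that are back-and-forth
equivalent to level `α` although their group von Neumann algebras are not `*`-isomorphic.

* `Pool.Agent.VN.groupVN G` is the double commutant of the left translations of `ℓ²(G)`.
* `Pool.Agent.VN.BF G H α n a b` is the back-and-forth relation of level `α` between the tuples
  `a` of `G` and `b` of `H`, defined by recursion on `α` as in the problem; `BFEquiv G H α` is the
  relation for the empty tuples.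
-/

set_option autoImplicit false

namespace Pool.Agent.Results.MP_7e9189_lc.NoCountableLevel

open Pool.Agent.VN

theorem result (α : Ordinal.{0}) (hα : α < Ordinal.omega 1) :
    ∃ (G H : Type) (_ : Group G) (_ : Group H), Countable G ∧ Countable H ∧ BFEquiv G H α ∧
      ¬ StarIsomorphic (groupVN G) (groupVN H) := by
  obtain ⟨G, H, iG, iH, h1, h2, h3, h4⟩ := final α hα
  refine ⟨G, H, iG, iH, h1, h2, h3, ?_⟩
  rw [groupVN_eq, groupVN_eq, StarIsomorphic, not_nonempty_iff]
  exact h4

end Pool.Agent.Results.MP_7e9189_lc.NoCountableLevel
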